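import Pool.Agent.H65.CM4.Targets1

/-!
# Row FLS: the lattices of the lines modulo an ideal
-/

set_option autoImplicit false

open MeasureTheory Set Filter NumberField NumberField.InfinitePlace Pool.Agent.H65.CM4
open scoped Real

namespace Pool.Agent.H96.CM4

variable (k : Type) [Field k] [NumberField k] [IsTotallyReal k]

omit [NumberField k] [IsTotallyReal k] in
theorem fls_mem (I : Ideal (𝓞 k)) (u v : V2 k) : v ∈ Lw I u ↔ det u v ∈ I := Iff.rfl

omit [IsTotallyReal k] in
theorem fls_finite (I : Ideal (𝓞 k)) (hI : I ≠ ⊥) :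
    {L : La k | ∃ u : V2 k, Cop I u ∧ L = Lw I u}.Finite := by
  have hfin : Finite (𝓞 k ⧸ I) := Ideal.finiteQuotientOfFreeOfNeBot I hI
  have hs : Function.Surjective fun u : V2 k =>
      ((Ideal.Quotient.mk I u.1, Ideal.Quotient.mk I u.2) : (𝓞 k ⧸ I) × (𝓞 k ⧸ I)) := by
    rintro ⟨a, b⟩
    obtain ⟨a, rfl⟩ := Ideal.Quotient.mk_surjective a
    obtain ⟨b, rfl⟩ := Ideal.Quotient.mk_surjective b
    exact ⟨(a, b), rfl⟩
  have h1 : ∀ u u' : V2 k, Ideal.Quotient.mk I u.1 = Ideal.Quotient.mk I u'.1 →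
      Ideal.Quotient.mk I u.2 = Ideal.Quotient.mk I u'.2 → Lw I u = Lw I u' := by
    intro u u' e1 e2
    ext v
    rw [fls_mem, fls_mem, ← Ideal.Quotient.eq_zero_iff_mem, ← Ideal.Quotient.eq_zero_iff_mem]
    unfold det
    rw [map_sub, map_mul, map_mul, map_sub, map_mul, map_mul, e1, e2]
  refine Set.Finite.subset (Set.finite_range fun q : (𝓞 k ⧸ I) × (𝓞 k ⧸ I) =>
    Lw I (Function.surjInv hs q)) ?_
  rintro L ⟨u, -, rfl⟩
  refine ⟨(Ideal.Quotient.mk I u.1, Ideal.Quotient.mk I u.2), ?_⟩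
  have h2 := Function.surjInv_eq hs (Ideal.Quotient.mk I u.1, Ideal.Quotient.mk I u.2)
  exact h1 _ _ (congrArg Prod.fst h2) (congrArg Prod.snd h2)

omit [IsTotallyReal k] in
theorem fls_index (I : Ideal (𝓞 k)) (u : V2 k) (hu : Cop I u) :
    ix (Lw I u) = Ideal.absNorm I := by
  let f : V2 k →+ 𝓞 k ⧸ I :=
    { toFun := fun v => Ideal.Quotient.mk I (det u v)
      map_zero' := by
        have h : det u 0 = 0 := by simp [det]
        rw [h, map_zero]
      map_add' := by
        intro a b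
        have h : det u (a + b) = det u a + det u b := by
          simp only [det, Prod.fst_add, Prod.snd_add]
          ring
        rw [h, map_add] }
  have hf : ∀ v, f v = Ideal.Quotient.mk I (det u v) := fun v => rfl
  have hker : f.ker = (Lw I u).toAddSubgroup := by
    ext v
    rw [AddMonoidHom.mem_ker, hf, Ideal.Quotient.eq_zero_iff_mem]
    rfl
  have hsurj : Function.Surjective f := by
    intro c
    obtain ⟨c, rfl⟩ := Ideal.Quotient.mk_surjective c
    have h1 : (1 : 𝓞 k) ∈ Ideal.span {u.1, u.2} ⊔ I := by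
      rw [show Ideal.span {u.1, u.2} ⊔ I = ⊤ from hu]
      exact Submodule.mem_top
    obtain ⟨s, hs, i, hi, h2⟩ := Submodule.mem_sup.1 h1
    obtain ⟨a, b, h3⟩ := Ideal.mem_span_pair.1 hs
    refine ⟨(-(c * b), c * a), ?_⟩
    rw [hf, Ideal.Quotient.eq]
    have h4 : det u (-(c * b), c * a) - c = -(c * i) := by
      unfold det
      simp only
      linear_combination c * h3 + c * h2
    rw [h4]
    exact I.neg_mem (I.mul_mem_left c hi)
  unfold ix
  rw [← hker, AddSubgroup.index_ker, AddMonoidHom.range_eq_top.2 hsurj, Ideal.absNorm_apply,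
    Submodule.cardQuot_apply]
  exact Nat.card_congr AddSubgroup.topEquiv.toEquiv

/-- **FLS.** -/
theorem pf_FLS : T_FLS k := by
  intro I L hI
  have hfin := fls_finite k I hI
  have h1 : L ∈ Ls I ↔ ∃ u : V2 k, Cop I u ∧ L = Lw I u := by
    unfold Ls
    rw [dif_pos hfin, Set.Finite.mem_toFinset]
    exact Iff.rfl
  refine ⟨h1, fun hL => ?_⟩
  obtain ⟨u, hu, rfl⟩ := h1.1 hL
  refine ⟨fun a ha v => ?_, fls_index k I u hu⟩
  rw [fls_mem]
  have h : det u (a • v) = a * det u v := by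
    simp only [det, Prod.smul_fst, Prod.smul_snd, smul_eq_mul]
    ring
  rw [h]
  exact I.mul_mem_right _ ha

end Pool.Agent.H96.CM4
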