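import Pool.Agent.H89.CM4.Targets2b

/-!
# Row IXC: the indices
-/

set_option autoImplicit false

open MeasureTheory Set Filter NumberField NumberField.InfinitePlace Pool.Agent.H65.CM4
  Pool.Agent.H89.CM4
open scoped Real

namespace Pool.Agent.H96.CM4

variable (k : Type) [Field k] [NumberField k]

/-- the lattice contains the multiples of the elements of the ideal -/
def Ct {k : Type} [Field k] [NumberField k] (I : Ideal (𝓞 k)) (A : La k) : Prop :=
  ∀ a ∈ I, ∀ u : V2 k, a • u ∈ A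

theorem ct_Mb (b : ℕ) (M : La k) (h : Mb b M) : Ct (Ideal.span {(b : 𝓞 k)}) M := by
  intro a ha u
  obtain ⟨c, rfl⟩ := Ideal.mem_span_singleton'.1 ha
  rw [mul_smul]
  exact M.smul_mem c (h u)

theorem ct_kO (J : Ideal (𝓞 k)) : Ct J (kO J) := by
  intro a ha u
  exact ⟨J.mul_mem_right _ ha, J.mul_mem_right _ ha⟩

theorem ct_inf (I J : Ideal (𝓞 k)) (A B : La k) (hA : Ct I A) (hB : Ct J B) :
    Ct (I * J) (A ⊓ B) := by
  intro a ha u
  exact ⟨hA a (Ideal.mul_le_left ha) u, hB a (Ideal.mul_le_right ha) u⟩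

theorem ct_sup (I J : Ideal (𝓞 k)) (A B : La k) (hA : Ct I A) (hB : Ct J B) (h : I ⊔ J = ⊤) :
    A ⊔ B = ⊤ := by
  rw [eq_top_iff]
  intro u _
  have h1 : (1 : 𝓞 k) ∈ I ⊔ J := by
    rw [h]
    exact Submodule.mem_top
  obtain ⟨i, hi, j, hj, h2⟩ := Submodule.mem_sup.1 h1
  refine Submodule.mem_sup.2 ⟨i • u, hA i hi u, j • u, hB j hj u, ?_⟩
  rw [← add_smul, h2, one_smul]

omit [NumberField k] in
theorem ix_inf (A B : La k) (h : A ⊔ B = ⊤) : ix (A ⊓ B) = ix A * ix B := by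
  have h1 : (A ⊓ B).toAddSubgroup = A.toAddSubgroup ⊓ B.toAddSubgroup := by
    ext u
    exact Iff.rfl
  have h2 : A.toAddSubgroup ⊔ B.toAddSubgroup = ⊤ := by
    rw [eq_top_iff]
    intro u _
    have h3 : u ∈ A ⊔ B := by
      rw [h]
      exact Submodule.mem_top
    obtain ⟨a, ha, b, hb, h4⟩ := Submodule.mem_sup.1 h3
    rw [← h4]
    exact AddSubgroup.add_mem_sup ha hb
  unfold ix
  rw [h1, ← AddSubgroup.relIndex_mul_index (inf_le_left : A.toAddSubgroup ⊓ B.toAddSubgroup ≤ _),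
    AddSubgroup.inf_relIndex_left, ← AddSubgroup.relIndex_sup_right (H := A.toAddSubgroup)
      (K := B.toAddSubgroup), h2, AddSubgroup.relIndex_top_right, mul_comm]

theorem ix_kO (J : Ideal (𝓞 k)) : ix (kO J) = Ideal.absNorm J ^ 2 := by
  have h1 : (kO J).toAddSubgroup =
      (Submodule.toAddSubgroup J).prod (Submodule.toAddSubgroup J) := by
    ext u
    exact Iff.rfl
  unfold ix
  rw [h1, AddSubgroup.index_prod, Ideal.absNorm_apply, Submodule.cardQuot, sq]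

theorem ix_b (b : ℕ) : Ideal.absNorm (Ideal.span {(b : 𝓞 k)}) = b ^ dg k := by
  rw [Ideal.absNorm_span_singleton]
  have h1 : ((b : 𝓞 k)) = algebraMap ℤ (𝓞 k) (b : ℤ) := by simp
  rw [h1, Algebra.norm_algebraMap, Int.natAbs_pow, Int.natAbs_natCast, RingOfIntegers.rank]
  rfl

variable [IsTotallyReal k]

/-- **IXC.** -/
theorem pf_IXC (_hEMB : T_EMB k) (hFLS : T_FLS k) (_hIXF : T_IXF k) : T_IXC k := by
  intro b M hb hM
  have hle : (kO (Ideal.span {(b : 𝓞 k)})).toAddSubgroup ≤ M.toAddSubgroup := by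
    rintro ⟨x, y⟩ ⟨hx, hy⟩
    obtain ⟨c, hc⟩ := Ideal.mem_span_singleton'.1 hx
    obtain ⟨d, hd⟩ := Ideal.mem_span_singleton'.1 hy
    have h1 : ((x, y) : V2 k) = (b : 𝓞 k) • ((c, d) : V2 k) := by
      refine Prod.ext ?_ ?_
      · show x = (b : 𝓞 k) * c
        rw [mul_comm]
        exact hc.symm
      · show y = (b : 𝓞 k) * d
        rw [mul_comm]
        exact hd.symm
    rw [h1]
    exact hM (c, d)
  have hdvd : ix M ∣ b ^ (2 * dg k) := by
    have h1 := AddSubgroup.index_dvd_of_le hle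
    have h2 : (kO (Ideal.span {(b : 𝓞 k)})).toAddSubgroup.index = b ^ (2 * dg k) := by
      have h3 := ix_kO k (Ideal.span {(b : 𝓞 k)})
      rw [ix_b, ← pow_mul, mul_comm] at h3
      exact h3
    rw [h2] at h1
    exact h1
  have hpos : 0 < b ^ (2 * dg k) := pow_pos hb _
  refine ⟨Nat.pos_of_dvd_of_pos hdvd hpos, Nat.le_of_dvd hpos hdvd, ?_⟩
  intro I J L hI hJ hIJ hL
  obtain ⟨hL1, hL2⟩ := (hFLS I L hI.ne).2 hL
  have hcM := ct_Mb k b M hM
  have e1 : ix (M ⊓ L) = ix M * Ideal.absNorm I := by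
    rw [ix_inf k M L (ct_sup k _ I M L hcM hL1 (by rw [sup_comm]; exact hI.cop)), hL2]
  refine ⟨e1, ?_⟩
  have hcop : (Ideal.span {(b : 𝓞 k)} * I) ⊔ J = ⊤ := by
    rw [sup_comm, Ideal.sup_mul_eq_of_coprime_left hJ.cop, sup_comm]
    exact hIJ
  rw [ix_inf k (M ⊓ L) (kO J) (ct_sup k _ J _ _ (ct_inf k _ I M L hcM hL1) (ct_kO k J) hcop), e1,
    ix_kO]

end Pool.Agent.H96.CM4
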